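import Mathlib
import Pool.Agent.V1118.CoxLimit

/-!
# A space-like limit direction that does not arise through powers
-/

open Filter Topology
open scoped LinearAlgebra.Projectivization
open Pool.Agent.V1118.Cox

namespace Pool.Agent.Results.MP_55c352_al.NotThroughPowers

section defs

variable {S : Type} [Fintype S] [DecidableEq S]

/-- A direction is space-like if the form takes a positive value on its vectors. -/
def IsSpaceLike (D : Datum S) (x : ℙ ℝ (S → ℝ)) : Prop := 0 < D.form x.rep x.rep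

/-- `x` is a limit direction: the limit of an injective sequence of points of the orbit of some
base point. -/
def IsLimitDirection (D : Datum S) (x : ℙ ℝ (S → ℝ)) : Prop :=
  ∃ (p : ℙ ℝ (S → ℝ)) (g : ℕ → ((S → ℝ) ≃ₗ[ℝ] (S → ℝ))), (∀ k, g k ∈ D.W) ∧
    Function.Injective (fun k => act (g k) p) ∧ Tendsto (fun k => act (g k) p) atTop (𝓝 x)

/-- `x` arises through powers of `w`: there are a base point `p` and integers `k_1 < k_2 < ...`
such that the points `w ^ k_j p` are pairwise distinct and converge to `x`. -/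
def ArisesThroughPowers (w : (S → ℝ) ≃ₗ[ℝ] (S → ℝ)) (x : ℙ ℝ (S → ℝ)) : Prop :=
  ∃ (p : ℙ ℝ (S → ℝ)) (k : ℕ → ℤ), StrictMono k ∧
    Function.Injective (fun j => act (w ^ (k j)) p) ∧
    Tendsto (fun j => act (w ^ (k j)) p) atTop (𝓝 x)

end defs

/-- The coordinates given by symmetric matrices. -/
def cZ (x : Fin 3 → ℝ) : ℝ := x 2 - x 0 - x 1

/-- `g` acts on symmetric matrices through an integral matrix that is the identity modulo two. -/
def HasMat (g : (Fin 3 → ℝ) ≃ₗ[ℝ] (Fin 3 → ℝ)) (a b c d : ℤ) : Prop :=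
  Odd a ∧ Even b ∧ Even c ∧ Odd d ∧ (a * d - b * c = 1 ∨ a * d - b * c = -1) ∧
    ∀ x : Fin 3 → ℝ, (g x) 0 = a ^ 2 * x 0 + a * b * cZ x + b ^ 2 * x 1 ∧
      (g x) 1 = c ^ 2 * x 0 + c * d * cZ x + d ^ 2 * x 1 ∧
      cZ (g x) = 2 * a * c * x 0 + (a * d + b * c) * cZ x + 2 * b * d * x 1

lemma hasMat {g : (Fin 3 → ℝ) ≃ₗ[ℝ] (Fin 3 → ℝ)} (hg : g ∈ uni.W) :
    ∃ a b c d : ℤ, HasMat g a b c d := by
  refine W_induction (P := fun g => ∃ a b c d : ℤ, HasMat g a b c d) ?_ ?_ ?_ hg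
  · refine ⟨1, 0, 0, 1, by decide, by decide, by decide, by decide, by norm_num, fun x => ?_⟩
    change x 0 = _ ∧ x 1 = _ ∧ cZ x = _
    refine ⟨by simp, by simp, by simp⟩
  · intro i
    fin_cases i
    · refine ⟨-1, -2, 0, 1, by decide, by decide, by decide, by decide, by norm_num, fun x => ?_⟩
      change (R 0 x) 0 = _ ∧ (R 0 x) 1 = _ ∧ cZ (R 0 x) = _
      rw [R_zero]
      refine ⟨by simp [cZ]; ring, by simp [cZ], by simp [cZ]; ring⟩
    · refine ⟨1, 0, -2, -1, by decide, by decide, by decide, by decide, by norm_num, fun x => ?_⟩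
      change (R 1 x) 0 = _ ∧ (R 1 x) 1 = _ ∧ cZ (R 1 x) = _
      rw [R_one]
      refine ⟨by simp [cZ], by simp [cZ]; ring, by simp [cZ]; ring⟩
    · refine ⟨1, 0, 0, -1, by decide, by decide, by decide, by decide, by norm_num, fun x => ?_⟩
      change (R 2 x) 0 = _ ∧ (R 2 x) 1 = _ ∧ cZ (R 2 x) = _
      rw [R_two]
      refine ⟨by simp [cZ], by simp [cZ], by simp [cZ]; ring⟩
  · rintro g h ⟨a, b, c, d, ha, hb, hc, hd, hdet, hg⟩ ⟨a', b', c', d', ha', hb', hc', hd', hdet', hh⟩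
    refine ⟨a * a' + b * c', a * b' + b * d', c * a' + d * c', c * b' + d * d', ?_, ?_, ?_, ?_,
      ?_, fun x => ?_⟩
    · exact (ha.mul ha').add_even (hb.mul_right _)
    · exact (hb'.mul_left _).add (hb.mul_right _)
    · exact (hc.mul_right _).add (hc'.mul_left _)
    · exact (hc.mul_right _).add_odd (hd.mul hd')
    · have : (a * a' + b * c') * (c * b' + d * d') - (a * b' + b * d') * (c * a' + d * c') =
        (a * d - b * c) * (a' * d' - b' * c') := by ring
      rw [this]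
      rcases hdet with h1 | h1 <;> rcases hdet' with h2 | h2 <;> rw [h1, h2] <;> norm_num
    · obtain ⟨h1, h2, h3⟩ := hg (h x)
      obtain ⟨h4, h5, h6⟩ := hh x
      change (g (h x)) 0 = _ ∧ (g (h x)) 1 = _ ∧ cZ (g (h x)) = _
      rw [h1, h2, h3, h4, h5, h6]
      push_cast
      refine ⟨by ring, by ring, by ring⟩

/-- The space-like direction. -/
def x3 : Fin 3 → ℝ := Datum.simpleRoot 2

lemma x3_ne : x3 ≠ 0 := simpleRoot_ne 2

lemma form_x3 (y : Fin 3 → ℝ) : uni.form x3 y = cZ y := by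
  rw [form_uni]
  simp [x3, Datum.simpleRoot, cZ]

/-- The case analysis: the integer `B (x, g x)` has absolute value one only for triangular
matrices. -/
lemma triangular {a b c d : ℤ} (ha : Odd a) (hd : Odd d)
    (hdet : a * d - b * c = 1 ∨ a * d - b * c = -1) (h : (a * d + b * c) ^ 2 = 1) :
    a ^ 2 = 1 ∧ d ^ 2 = 1 ∧ (b = 0 ∨ c = 0) := by
  have h1 : a * d + b * c = 1 ∨ a * d + b * c = -1 := by
    rw [pow_two] at h
    exact mul_self_eq_one_iff.1 h
  have h2 : Odd (a * d) := ha.mul hd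
  obtain ⟨p, hp⟩ : ∃ p, p = a * d := ⟨_, rfl⟩
  obtain ⟨q, hq⟩ : ∃ q, q = b * c := ⟨_, rfl⟩
  rw [← hp, ← hq] at h1 hdet
  rw [← hp] at h2
  obtain ⟨m, hm⟩ := h2
  have h3 : q = 0 := by omega
  have h4 : p = 1 ∨ p = -1 := by omega
  have ha' : IsUnit a := by
    rcases h4 with h4 | h4
    · exact IsUnit.of_mul_eq_one d (by rw [← hp, h4])
    · exact IsUnit.of_mul_eq_one (-d) (by rw [mul_neg, ← hp, h4]; norm_num)
  have hd' : IsUnit d := by
    rcases h4 with h4 | h4
    · exact IsUnit.of_mul_eq_one a (by rw [mul_comm, ← hp, h4])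
    · exact IsUnit.of_mul_eq_one (-a) (by rw [mul_neg, mul_comm, ← hp, h4]; norm_num)
  refine ⟨Int.isUnit_sq ha', Int.isUnit_sq hd', ?_⟩
  rw [hq] at h3
  exact mul_eq_zero.1 h3

/-- A frequently constant sequence that tends to zero is frequently zero, with a discrete set of
values in the other coordinate. -/
lemma core {E F : ℕ → ℝ} {E₀ F₀ Z₀ : ℝ} (hE : Tendsto E atTop (𝓝 0)) (hF : Tendsto F atTop (𝓝 0))
    (hZ : F₀ = 0 → Z₀ ≠ 0)
    (hfreq : ∃ᶠ j in atTop, F j = F₀ ∧ (F₀ = 0 → ∃ n : ℤ, E j = E₀ + 2 * n * Z₀)) :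
    F₀ = 0 ∧ ∃ᶠ j in atTop, E j = 0 ∧ F j = 0 := by
  have hF0 : F₀ = 0 := by
    by_contra hne
    have h1 : ∀ᶠ j in atTop, |F j| < |F₀| := by
      have h2 := hF.abs
      rw [abs_zero] at h2
      exact h2.eventually (gt_mem_nhds (abs_pos.2 hne))
    obtain ⟨j, hj1, hj2⟩ := (hfreq.and_eventually h1).exists
    rw [hj1.1] at hj2
    exact lt_irrefl _ hj2
  have hZ0 := hZ hF0
  refine ⟨hF0, ?_⟩
  have hEa : Tendsto (fun j => |E j|) atTop (𝓝 0) := by
    have h2 := hE.abs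
    rwa [abs_zero] at h2
  have h1 : ∀ᶠ j in atTop, |E j| < |Z₀| := hEa.eventually (gt_mem_nhds (abs_pos.2 hZ0))
  have h2 := hfreq.and_eventually h1
  obtain ⟨j₀, hj₀, hj₀'⟩ := h2.exists
  obtain ⟨n₀, hn₀⟩ := hj₀.2 hF0
  have h3 : ∃ᶠ j in atTop, E j = E j₀ ∧ F j = 0 := by
    refine h2.mono fun j hj => ?_
    obtain ⟨⟨hj1, hj2⟩, hj3⟩ := hj
    obtain ⟨n, hn⟩ := hj2 hF0
    refine ⟨?_, by rw [hj1, hF0]⟩
    have h4 : |E j - E j₀| < 2 * |Z₀| := by
      calc |E j - E j₀| ≤ |E j| + |E j₀| := abs_sub _ _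
        _ < 2 * |Z₀| := by linarith
    have h5 : E j - E j₀ = 2 * ((n - n₀ : ℤ) : ℝ) * Z₀ := by
      rw [hn, hn₀]
      push_cast
      ring
    rw [h5, abs_mul, abs_mul, abs_of_pos (by norm_num : (0 : ℝ) < 2)] at h4
    have h6 : |((n - n₀ : ℤ) : ℝ)| < 1 := by
      have h7 := abs_pos.2 hZ0
      by_contra hlt
      have h8 := not_lt.1 hlt
      nlinarith
    have h7 : |n - n₀| < 1 := by exact_mod_cast h6
    have h8 : n = n₀ := by
      have := Int.abs_lt_one_iff.1 h7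
      omega
    rw [hn, hn₀, h8]
  have h4 : E j₀ = 0 := by
    by_contra hne
    have h5 : ∀ᶠ j in atTop, |E j| < |E j₀| := hEa.eventually (gt_mem_nhds (abs_pos.2 hne))
    obtain ⟨j, hj1, hj2⟩ := (h3.and_eventually h5).exists
    rw [hj1.1] at hj2
    exact lt_irrefl _ hj2
  rwa [h4] at h3

/-- The affine chart in which the last coordinate is one. -/
noncomputable def ch (p : ℙ ℝ (Fin 3 → ℝ)) (s : Fin 3) : ℝ := ver p s 2 / ver p 2 2

lemma ch_mk {v : Fin 3 → ℝ} (hv : v ≠ 0) (h2 : v 2 ≠ 0) (s : Fin 3) :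
    ch (Projectivization.mk ℝ v hv) s = v s / v 2 := by
  unfold ch
  rw [ver_mk, ver_mk]
  have := (nsq_pos hv).ne'
  field_simp

lemma tendsto_ch {f : ℕ → ℙ ℝ (Fin 3 → ℝ)}
    (hf : Tendsto f atTop (𝓝 (Projectivization.mk ℝ x3 x3_ne))) (s : Fin 3) :
    Tendsto (fun j => ch (f j) s) atTop (𝓝 (x3 s)) := by
  have h1 : ∀ t, Tendsto (fun j => ver (f j) t 2) atTop
      (𝓝 (ver (Projectivization.mk ℝ x3 x3_ne) t 2)) := by
    intro t
    exact (((continuous_apply (2 : Fin 3)).comp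
      ((continuous_apply t).comp continuous_ver)).tendsto _).comp hf
  have hn : nsq x3 = 1 := by
    simp [nsq, x3, Datum.simpleRoot, Fin.sum_univ_three]
  have h2 : ∀ t, ver (Projectivization.mk ℝ x3 x3_ne) t 2 = x3 t := by
    intro t
    rw [ver_mk, hn]
    simp [x3, Datum.simpleRoot]
  have h3 := (h1 s).div (h1 2) (by rw [h2]; simp [x3, Datum.simpleRoot])
  rw [h2, h2] at h3
  have h4 : x3 2 = 1 := by simp [x3, Datum.simpleRoot]
  rw [h4, div_one] at h3
  exact h3

lemma form_smul_left (a : ℝ) (x y : Fin 3 → ℝ) : uni.form (a • x) y = a * uni.form x y := by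
  simp only [form_uni, Pi.smul_apply, smul_eq_mul]
  ring

lemma continuous_form {f g : ℕ → Fin 3 → ℝ} {x y : Fin 3 → ℝ} (hf : Tendsto f atTop (𝓝 x))
    (hg : Tendsto g atTop (𝓝 y)) :
    Tendsto (fun j => uni.form (f j) (g j)) atTop (𝓝 (uni.form x y)) := by
  have hf' := fun s => (tendsto_pi_nhds.1 hf) s
  have hg' := fun s => (tendsto_pi_nhds.1 hg) s
  simp only [form_uni]
  exact ((((((hf' 0).mul (hg' 0)).add ((hf' 1).mul (hg' 1))).add ((hf' 2).mul (hg' 2))).sub
    (((hf' 0).mul (hg' 1)).add ((hf' 1).mul (hg' 0)))).sub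
    (((hf' 0).mul (hg' 2)).add ((hf' 2).mul (hg' 0)))).sub
    (((hf' 1).mul (hg' 2)).add ((hf' 2).mul (hg' 1)))

lemma form_near {u u' : Fin 3 → ℝ} (h2 : u 2 = 1) (h2' : u' 2 = 1) (h0 : |u 0| < 1 / 100)
    (h1 : |u 1| < 1 / 100) (h0' : |u' 0| < 1 / 100) (h1' : |u' 1| < 1 / 100) :
    0.95 < uni.form u u' ∧ uni.form u u' < 1.05 := by
  rw [form_uni, h2, h2']
  rw [abs_lt] at h0 h1 h0' h1'
  constructor <;> nlinarith [h0.1, h0.2, h1.1, h1.2, h0'.1, h0'.2, h1'.1, h1'.2]

/-- The direction of `x3` does not arise through powers of an element of the group. -/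
theorem not_powers (w : (Fin 3 → ℝ) ≃ₗ[ℝ] (Fin 3 → ℝ)) (hw : w ∈ uni.W) :
    ¬ ArisesThroughPowers w (Projectivization.mk ℝ x3 x3_ne) := by
  rintro ⟨p, k, hk, hinj, hlim⟩
  induction p with | h p0 hp0 =>
  obtain ⟨v, hv⟩ : ∃ v : ℕ → Fin 3 → ℝ, v = fun j => (w ^ (k j)) p0 := ⟨_, rfl⟩
  have hvj : ∀ j, v j = (w ^ (k j)) p0 := fun j => by rw [hv]
  have hvne : ∀ j, v j ≠ 0 := fun j => by
    rw [hvj]
    simpa using hp0
  have hact : ∀ j, act (w ^ (k j)) (Projectivization.mk ℝ p0 hp0) =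
      Projectivization.mk ℝ (v j) (hvne j) := by
    intro j
    subst hv
    rfl
  have hlim' : Tendsto (fun j => Projectivization.mk ℝ (v j) (hvne j)) atTop
      (𝓝 (Projectivization.mk ℝ x3 x3_ne)) := by
    refine hlim.congr fun j => ?_
    exact hact j
  have hinj' : ∀ i j, Projectivization.mk ℝ (v i) (hvne i) = Projectivization.mk ℝ (v j) (hvne j) →
      i = j := by
    intro i j hij
    rw [← hact, ← hact] at hij
    exact hinj hij
  -- nonvanishing of the last coordinate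
  have h22 : ∀ᶠ j in atTop, v j 2 ≠ 0 := by
    have h1 : Tendsto (fun j => ver (Projectivization.mk ℝ (v j) (hvne j)) 2 2) atTop
        (𝓝 (ver (Projectivization.mk ℝ x3 x3_ne) 2 2)) :=
      (((continuous_apply (2 : Fin 3)).comp
        ((continuous_apply (2 : Fin 3)).comp continuous_ver)).tendsto _).comp hlim'
    have h2 : ver (Projectivization.mk ℝ x3 x3_ne) 2 2 = 1 := by
      rw [ver_mk]
      simp [nsq, x3, Datum.simpleRoot, Fin.sum_univ_three]
    rw [h2] at h1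
    filter_upwards [h1.eventually (lt_mem_nhds (show (0 : ℝ) < 1 by norm_num))] with j hj h0
    rw [ver_mk, h0] at hj
    simp at hj
  -- the normalized vectors
  obtain ⟨u, hu⟩ : ∃ u : ℕ → Fin 3 → ℝ, u = fun j => (v j 2)⁻¹ • v j := ⟨_, rfl⟩
  have huj : ∀ j, u j = (v j 2)⁻¹ • v j := fun j => by rw [hu]
  have hulim : Tendsto u atTop (𝓝 x3) := by
    rw [tendsto_pi_nhds]
    intro s
    refine (tendsto_ch hlim' s).congr' ?_
    filter_upwards [h22] with j hj
    rw [ch_mk _ hj, huj]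
    simp only [Pi.smul_apply, smul_eq_mul]
    rw [div_eq_inv_mul]
  have hu2 : ∀ j, v j 2 ≠ 0 → u j 2 = 1 := by
    intro j hj
    rw [huj]
    simp only [Pi.smul_apply, smul_eq_mul]
    exact inv_mul_cancel₀ hj
  have hvu : ∀ j, v j 2 ≠ 0 → v j = (v j 2) • u j := by
    intro j hj
    rw [huj, smul_smul, mul_inv_cancel₀ hj, one_smul]
  have hu0lim : Tendsto (fun j => |u j 0|) atTop (𝓝 0) := by
    have h1 := ((tendsto_pi_nhds.1 hulim) 0).abs
    simpa [x3, Datum.simpleRoot] using h1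
  have hu1lim : Tendsto (fun j => |u j 1|) atTop (𝓝 0) := by
    have h1 := ((tendsto_pi_nhds.1 hulim) 1).abs
    simpa [x3, Datum.simpleRoot] using h1
  obtain ⟨J, hJ⟩ : ∃ J, ∀ j ≥ J, v j 2 ≠ 0 ∧ |u j 0| < 1 / 100 ∧ |u j 1| < 1 / 100 := by
    have h1 := hu0lim.eventually (gt_mem_nhds (show (0 : ℝ) < 1 / 100 by norm_num))
    have h2 := hu1lim.eventually (gt_mem_nhds (show (0 : ℝ) < 1 / 100 by norm_num))
    exact eventually_atTop.1 (h22.and (h1.and h2))
  obtain ⟨c, hc⟩ : ∃ c, c = uni.form p0 p0 := ⟨_, rfl⟩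
  have hcv : ∀ j, uni.form (v j) (v j) = c := by
    intro j
    rw [hvj, form_W (zpow_mem hw _), hc]
  have hcu : ∀ j, v j 2 ≠ 0 → c = (v j 2) ^ 2 * uni.form (u j) (u j) := by
    intro j hj
    rw [← hcv j]
    conv_lhs => rw [hvu j hj]
    rw [form_smul_left, form_smul_right]
    ring
  have hx33 : uni.form x3 x3 = 1 := by
    rw [form_x3]
    simp [cZ, x3, Datum.simpleRoot]
  -- the Gram argument
  have hgram : ∀ g ∈ uni.W, Commute g w → uni.form p0 (g p0) = c * uni.form x3 (g x3) := by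
    intro g hg hgw
    have hG : ∀ l, uni.form (v l) (g (v l)) = uni.form p0 (g p0) := by
      intro l
      have h1 : g (v l) = (w ^ (k l)) (g p0) := by
        rw [hvj]
        have h2 : g * w ^ (k l) = w ^ (k l) * g := (hgw.zpow_right (k l)).eq
        exact congrArg (fun f : (Fin 3 → ℝ) ≃ₗ[ℝ] (Fin 3 → ℝ) => f p0) h2
      rw [h1, hvj, form_W (zpow_mem hw _)]
    have hgc : Continuous g := (g : (Fin 3 → ℝ) →ₗ[ℝ] (Fin 3 → ℝ)).continuous_of_finiteDimensional
    have h1 : Tendsto (fun l => uni.form (u l) (g (u l))) atTop (𝓝 (uni.form x3 (g x3))) :=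
      continuous_form hulim ((hgc.tendsto x3).comp hulim)
    have h2 : Tendsto (fun l => uni.form (u l) (u l)) atTop (𝓝 1) := by
      have := continuous_form hulim hulim
      rwa [hx33] at this
    have h3 : Tendsto (fun l => uni.form p0 (g p0) * uni.form (u l) (u l)) atTop
        (𝓝 (uni.form p0 (g p0) * 1)) := h2.const_mul _
    have h4 : Tendsto (fun l => c * uni.form (u l) (g (u l))) atTop
        (𝓝 (c * uni.form x3 (g x3))) := h1.const_mul _
    have h5 : (fun l => uni.form p0 (g p0) * uni.form (u l) (u l)) =ᶠ[atTop]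
        (fun l => c * uni.form (u l) (g (u l))) := by
      filter_upwards [h22] with l hl
      rw [← hG l]
      have h6 : uni.form (v l) (g (v l)) = (v l 2) ^ 2 * uni.form (u l) (g (u l)) := by
        conv_lhs => rw [hvu l hl]
        rw [map_smul, form_smul_left, form_smul_right]
        ring
      rw [h6, hcu l hl]
      ring
    have h6 := tendsto_nhds_unique_of_eventuallyEq h3 h4 h5
    rwa [mul_one] at h6
  have hc0 : c ≠ 0 := by
    intro h0
    have h1 := hcu J (hJ J le_rfl).1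
    have h2 := form_near (hu2 J (hJ J le_rfl).1) (hu2 J (hJ J le_rfl).1) (hJ J le_rfl).2.1
      (hJ J le_rfl).2.2 (hJ J le_rfl).2.1 (hJ J le_rfl).2.2
    rw [h0] at h1
    have h3 : 0 < (v J 2) ^ 2 := by
      have := (hJ J le_rfl).1
      positivity
    have h4 : 0 < (v J 2) ^ 2 * uni.form (u J) (u J) := mul_pos h3 (by linarith [h2.1])
    linarith
  -- the matrices are triangular
  have htri : ∀ j ≥ J, ∃ a b c d : ℤ, HasMat (w ^ (k j - k J)) a b c d ∧ a ^ 2 = 1 ∧ d ^ 2 = 1 ∧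
      (b = 0 ∨ c = 0) := by
    intro j hj
    have hgW : w ^ (k j - k J) ∈ uni.W := zpow_mem hw _
    obtain ⟨a, b, c', d, hm⟩ := hasMat hgW
    refine ⟨a, b, c', d, hm, triangular hm.1 hm.2.2.2.1 hm.2.2.2.2.1 ?_⟩
    have hN : uni.form x3 ((w ^ (k j - k J)) x3) = ((a * d + b * c' : ℤ) : ℝ) := by
      rw [form_x3, (hm.2.2.2.2.2 x3).2.2]
      simp [x3, Datum.simpleRoot, cZ]
    have h1 := hgram _ hgW ((Commute.refl w).zpow_left _)
    rw [hN] at h1
    have h2 : uni.form (v J) (v j) = c * ((a * d + b * c' : ℤ) : ℝ) := by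
      rw [← h1]
      have h3 : v j = (w ^ (k J)) ((w ^ (k j - k J)) p0) := by
        rw [hvj]
        have h4 : w ^ (k j) = w ^ (k J) * w ^ (k j - k J) := by
          rw [← zpow_add]
          congr 1
          ring
        rw [h4]
        rfl
      rw [h3, hvj, form_W (zpow_mem hw _)]
    obtain ⟨hJ1, hJ2, hJ3⟩ := hJ J le_rfl
    obtain ⟨hj1, hj2, hj3⟩ := hJ j hj
    have h3 : uni.form (v J) (v j) = (v J 2) * (v j 2) * uni.form (u J) (u j) := by
      conv_lhs => rw [hvu J hJ1, hvu j hj1]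
      rw [form_smul_left, form_smul_right]
      ring
    have h4 := hcu J hJ1
    have h5 := hcu j hj1
    have f1 := form_near (hu2 J hJ1) (hu2 j hj1) hJ2 hJ3 hj2 hj3
    have f2 := form_near (hu2 J hJ1) (hu2 J hJ1) hJ2 hJ3 hJ2 hJ3
    have f3 := form_near (hu2 j hj1) (hu2 j hj1) hj2 hj3 hj2 hj3
    obtain ⟨N, hNN⟩ : ∃ N : ℤ, N = a * d + b * c' := ⟨_, rfl⟩
    rw [← hNN] at h2 ⊢
    obtain ⟨F, hF⟩ : ∃ F, F = uni.form (u J) (u j) := ⟨_, rfl⟩
    obtain ⟨G, hG⟩ : ∃ G, G = uni.form (u J) (u J) := ⟨_, rfl⟩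
    obtain ⟨H, hH⟩ : ∃ H, H = uni.form (u j) (u j) := ⟨_, rfl⟩
    rw [← hF] at f1 h3
    rw [← hG] at f2 h4
    rw [← hH] at f3 h5
    have h6 : F ^ 2 = G * H * (N : ℝ) ^ 2 := by
      have h7 : (v J 2) ^ 2 * (v j 2) ^ 2 * F ^ 2 = (v J 2) ^ 2 * (v j 2) ^ 2 * (G * H * (N : ℝ) ^ 2) := by
        calc (v J 2) ^ 2 * (v j 2) ^ 2 * F ^ 2 = ((v J 2) * (v j 2) * F) ^ 2 := by ring
          _ = (c * N) ^ 2 := by rw [← h3, h2]
          _ = c * c * (N : ℝ) ^ 2 := by ring
          _ = ((v J 2) ^ 2 * G) * ((v j 2) ^ 2 * H) * (N : ℝ) ^ 2 := by rw [← h4, ← h5]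
          _ = _ := by ring
      exact mul_left_cancel₀ (by positivity) h7
    have h7 : (N : ℝ) ^ 2 < 2 := by
      have : (0.9 : ℝ) ≤ G * H := by nlinarith [f2.1, f3.1]
      have h8 : F ^ 2 < 1.2 := by nlinarith [f1.1, f1.2]
      nlinarith [sq_nonneg (N : ℝ)]
    have h8 : 0 < (N : ℝ) ^ 2 := by
      by_contra hlt
      have h9 : (N : ℝ) ^ 2 = 0 := le_antisymm (not_lt.1 hlt) (sq_nonneg _)
      rw [h9, mul_zero] at h6
      nlinarith [f1.1]
    have h9 : N ^ 2 < 2 := by exact_mod_cast h7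
    have h10 : 0 < N ^ 2 := by exact_mod_cast h8
    omega
  -- limits of the first two coordinates
  have hbdd : ∀ᶠ j in atTop, (v j 2) ^ 2 ≤ 2 * |c| := by
    filter_upwards [eventually_ge_atTop J] with j hj
    obtain ⟨hj1, hj2, hj3⟩ := hJ j hj
    have f3 := form_near (hu2 j hj1) (hu2 j hj1) hj2 hj3 hj2 hj3
    have h5 := hcu j hj1
    have h6 : c ≤ |c| := le_abs_self c
    have h7 : 0 ≤ (v j 2) ^ 2 := sq_nonneg _
    nlinarith [f3.1]
  have hcoord : ∀ s, Tendsto (fun j => |u j s|) atTop (𝓝 0) →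
      Tendsto (fun j => v j s) atTop (𝓝 0) := by
    intro s hs
    have h1 : Tendsto (fun j => (2 * |c| + 1) * |u j s|) atTop (𝓝 0) := by
      have := hs.const_mul (2 * |c| + 1)
      rwa [mul_zero] at this
    rw [tendsto_zero_iff_abs_tendsto_zero]
    refine squeeze_zero' (Eventually.of_forall fun j => abs_nonneg _) ?_ h1
    filter_upwards [h22, hbdd] with j hj1 hj2
    simp only [Function.comp]
    rw [show v j s = v j 2 * u j s by
      conv_lhs => rw [hvu j hj1]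
      rfl, abs_mul]
    refine mul_le_mul_of_nonneg_right ?_ (abs_nonneg _)
    have h3 : |v j 2| ^ 2 ≤ 2 * |c| := by rwa [sq_abs]
    nlinarith [abs_nonneg (v j 2), sq_nonneg (|v j 2| - 1)]
  have hv0 := hcoord 0 hu0lim
  have hv1 := hcoord 1 hu1lim
  -- the steps
  have hstep : ∀ j, v j = (w ^ (k j - k J)) (v J) := by
    intro j
    rw [hvj, hvj]
    have h4 : w ^ (k j) = w ^ (k j - k J) * w ^ (k J) := by
      rw [← zpow_add]
      congr 1
      ring
    rw [h4]
    rfl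
  have hself := hcv J
  rw [form_self] at hself
  have hfin : ∃ᶠ j in atTop, v j 0 = 0 ∧ v j 1 = 0 := by
    have hor : ∃ᶠ j in atTop, (v j 1 = v J 1 ∧ (v J 1 = 0 → ∃ n : ℤ, v j 0 = v J 0 +
        2 * n * cZ (v J))) ∨ (v j 0 = v J 0 ∧ (v J 0 = 0 → ∃ n : ℤ, v j 1 = v J 1 +
        2 * n * cZ (v J))) := by
      refine Eventually.frequently ?_
      filter_upwards [eventually_ge_atTop J] with j hj
      obtain ⟨a, b, c', d, hm, ha, hd, hbc⟩ := htri j hj
      have h1 := hm.2.2.2.2.2 (v J)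
      rw [← hstep j] at h1
      have ha' : (a : ℝ) ^ 2 = 1 := by exact_mod_cast ha
      have hd' : (d : ℝ) ^ 2 = 1 := by exact_mod_cast hd
      obtain ⟨b', hb'⟩ := hm.2.1
      obtain ⟨e, he⟩ := hm.2.2.1
      rcases hbc with hb | hcc
      · right
        refine ⟨?_, fun h0 => ⟨e * d, ?_⟩⟩
        · rw [h1.1, hb, ha']
          simp
        · rw [h1.2.1, h0, he, hd']
          push_cast
          ring
      · left
        refine ⟨?_, fun h0 => ⟨a * b', ?_⟩⟩
        · rw [h1.2.1, hcc, hd']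
          simp
        · rw [h1.1, h0, hb', ha']
          push_cast
          ring
    rw [frequently_or_distrib] at hor
    rcases hor with hor | hor
    · refine (core hv0 hv1 (fun h0 hz => hc0 ?_) hor).2
      rw [← hself, h0]
      have : v J 2 - v J 0 - v J 1 = 0 := hz
      rw [h0] at this
      rw [this]
      ring
    · refine (core hv1 hv0 (fun h0 hz => hc0 ?_) hor).2.mono fun j hj => ⟨hj.2, hj.1⟩
      rw [← hself, h0]
      have : v J 2 - v J 0 - v J 1 = 0 := hz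
      rw [h0] at this
      rw [this]
      ring
  have heq : ∀ j, v j 0 = 0 ∧ v j 1 = 0 →
      Projectivization.mk ℝ (v j) (hvne j) = Projectivization.mk ℝ x3 x3_ne := by
    intro j hj
    rw [Projectivization.mk_eq_mk_iff']
    refine ⟨v j 2, ?_⟩
    funext s
    fin_cases s
    · simp [x3, Datum.simpleRoot, hj.1]
    · simp [x3, Datum.simpleRoot, hj.2]
    · simp [x3, Datum.simpleRoot]
  obtain ⟨i, hi⟩ := hfin.exists
  obtain ⟨j, hj, hji⟩ := (hfin.and_eventually (eventually_gt_atTop i)).exists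
  exact hji.ne (hinj' i j ((heq i hi).trans (heq j hj).symm))

/-! ### `x3` is a limit direction -/

lemma exists_finite_cf (N : ℕ) : ∀ m : ℕ, ∃ x : ℕ → ℝ,
    (∀ i : ℕ, x i ∈ Set.Icc (2 * ((m : ℝ) + i + 1)) (2 * ((m : ℝ) + i + 1) + 1)) ∧
    ∀ i < N, x i * x (i + 1) = 2 * ((m : ℝ) + i + 1) * x (i + 1) + 1 := by
  induction N with
  | zero =>
    intro m
    exact ⟨fun i => 2 * ((m : ℝ) + i + 1), fun i => ⟨le_rfl, by linarith⟩,
      fun i hi => absurd hi (Nat.not_lt_zero i)⟩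
  | succ N ih =>
    intro m
    obtain ⟨y, hy1, hy2⟩ := ih (m + 1)
    have hy0 : 1 ≤ y 0 := by
      have := (hy1 0).1
      have h0 : (0 : ℝ) ≤ m := Nat.cast_nonneg m
      push_cast at this
      linarith
    refine ⟨fun i => Nat.casesOn i (2 * ((m : ℝ) + 1) + 1 / y 0) (fun j => y j), ?_, ?_⟩
    · intro i
      cases i with
      | zero =>
        have h1 : 0 < 1 / y 0 := by positivity
        have h2 : 1 / y 0 ≤ 1 := by
          rw [div_le_one (by linarith)]
          exact hy0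
        constructor
        · change 2 * ((m : ℝ) + ((0 : ℕ) : ℝ) + 1) ≤ 2 * ((m : ℝ) + 1) + 1 / y 0
          push_cast
          linarith
        · change 2 * ((m : ℝ) + 1) + 1 / y 0 ≤ 2 * ((m : ℝ) + ((0 : ℕ) : ℝ) + 1) + 1
          push_cast
          linarith
      | succ j =>
        have h3 := hy1 j
        push_cast at h3 ⊢
        constructor
        · change 2 * ((m : ℝ) + (j + 1) + 1) ≤ y j
          linarith [h3.1]
        · change y j ≤ 2 * ((m : ℝ) + (j + 1) + 1) + 1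
          linarith [h3.2]
    · intro i hi
      cases i with
      | zero =>
        change (2 * ((m : ℝ) + 1) + 1 / y 0) * y 0 = 2 * ((m : ℝ) + ((0 : ℕ) : ℝ) + 1) * y 0 + 1
        have : y 0 ≠ 0 := by positivity
        push_cast
        field_simp
        ring
      | succ j =>
        change y j * y (j + 1) = 2 * ((m : ℝ) + ((j + 1 : ℕ) : ℝ) + 1) * y (j + 1) + 1
        have h3 := hy2 j (by omega)
        push_cast at h3 ⊢
        rw [h3]
        ring

/-- The tails of an infinite continued fraction with partial quotients `2, 4, 6, ...`. -/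
lemma exists_cf : ∃ x : ℕ → ℝ,
    (∀ i : ℕ, x i ∈ Set.Icc (2 * ((i : ℝ) + 1)) (2 * ((i : ℝ) + 1) + 1)) ∧
    ∀ i, x i = 2 * ((i : ℝ) + 1) + 1 / x (i + 1) := by
  obtain ⟨t, ht⟩ : ∃ t : ℕ → Set (ℕ → ℝ), t = fun N => {x : ℕ → ℝ |
    x ∈ Set.pi Set.univ (fun i : ℕ => Set.Icc (2 * ((i : ℝ) + 1)) (2 * ((i : ℝ) + 1) + 1))} ∩
    {x : ℕ → ℝ | ∀ i < N, x i * x (i + 1) = 2 * ((i : ℝ) + 1) * x (i + 1) + 1} := ⟨_, rfl⟩
  have hne := IsCompact.nonempty_iInter_of_sequence_nonempty_isCompact_isClosed t ?_ ?_ ?_ ?_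
  · obtain ⟨x, hx⟩ := hne
    rw [Set.mem_iInter] at hx
    have h1 : ∀ i : ℕ, x i ∈ Set.Icc (2 * ((i : ℝ) + 1)) (2 * ((i : ℝ) + 1) + 1) := by
      intro i
      have := hx 0
      rw [ht] at this
      exact this.1 i (Set.mem_univ i)
    refine ⟨x, h1, fun i => ?_⟩
    have h2 := hx (i + 1)
    rw [ht] at h2
    have h3 := h2.2 i (by omega)
    have h4 : 0 < x (i + 1) := by
      have h5 := (h1 (i + 1)).1
      have h6 : (0 : ℝ) ≤ ((i + 1 : ℕ) : ℝ) := Nat.cast_nonneg _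
      linarith
    field_simp
    linarith
  · intro N x hx
    rw [ht] at hx ⊢
    exact ⟨hx.1, fun i hi => hx.2 i (by omega)⟩
  · intro N
    obtain ⟨x, hx1, hx2⟩ := exists_finite_cf N 0
    refine ⟨x, ?_⟩
    rw [ht]
    refine ⟨fun i _ => ?_, fun i hi => ?_⟩
    · have := hx1 i
      simpa using this
    · have := hx2 i hi
      simpa using this
  · rw [ht]
    have h1 : IsCompact (Set.pi Set.univ
        (fun i : ℕ => Set.Icc (2 * ((i : ℝ) + 1)) (2 * ((i : ℝ) + 1) + 1))) :=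
      isCompact_univ_pi fun i => isCompact_Icc
    refine h1.inter_right ?_
    simp
  · intro N
    rw [ht]
    refine IsClosed.inter ?_ ?_
    · exact isClosed_set_pi fun i _ => isClosed_Icc
    · have h1 : {x : ℕ → ℝ | ∀ i < N, x i * x (i + 1) = 2 * ((i : ℝ) + 1) * x (i + 1) + 1} =
          ⋂ i, ⋂ (_ : i < N),
            {x : ℕ → ℝ | x i * x (i + 1) = 2 * ((i : ℝ) + 1) * x (i + 1) + 1} := by
        ext x
        simp
      rw [h1]
      refine isClosed_iInter fun i => isClosed_iInter fun _ => ?_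
      exact isClosed_eq (by fun_prop) (by fun_prop)

/-- The direction polar to the geodesic with end points `ξ` and `η`. -/
def PP (ξ η : ℝ) : Fin 3 → ℝ := ![ξ * η, 1, (1 + ξ) * (1 + η)]

/-- The same in the opposite chart. -/
def PP' (σ τ : ℝ) : Fin 3 → ℝ := ![1, σ * τ, (1 + σ) * (1 + τ)]

lemma PP_ne (ξ η : ℝ) : PP ξ η ≠ 0 := by
  intro h
  have := congrFun h 1
  simp [PP] at this

lemma par_PP (n : ℕ) (ξ η : ℝ) : (par ^ n) (PP ξ η) = PP (ξ - 2 * n) (η - 2 * n) := by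
  rw [par_pow_apply]
  funext j
  fin_cases j <;> simp [PP] <;> ring

/-- The other parabolic element. -/
noncomputable def lpar : (Fin 3 → ℝ) ≃ₗ[ℝ] (Fin 3 → ℝ) := sr 1 * sr 2

lemma lpar_mem : lpar ∈ uni.W := mul_mem (sr_mem 1) (sr_mem 2)

lemma lpar_apply (x : Fin 3 → ℝ) :
    lpar x = ![x 0, 3 * x 1 + 6 * x 0 - 2 * x 2, 2 * x 0 + 2 * x 1 - x 2] := by
  change R 1 (R 2 x) = _
  rw [R_one, R_two]
  funext j
  fin_cases j <;> simp <;> ring

lemma lpar_pow_apply (n : ℕ) (x : Fin 3 → ℝ) :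
    (lpar ^ n) x = ![x 0, x 1 + 2 * n * (x 1 - x 2) + (4 * n ^ 2 + 2 * n) * x 0,
      x 2 + 2 * n * (x 1 - x 2) + (4 * n ^ 2 - 2 * n) * x 0] := by
  induction n with
  | zero =>
    funext j
    fin_cases j <;> simp
  | succ n ih =>
    rw [pow_succ']
    change lpar ((lpar ^ n) x) = _
    rw [ih, lpar_apply]
    funext j
    fin_cases j <;> simp <;> ring

lemma lpar_PP' (n : ℕ) (σ τ : ℝ) : (lpar ^ n) (PP' σ τ) = PP' (σ - 2 * n) (τ - 2 * n) := by
  rw [lpar_pow_apply]
  funext j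
  fin_cases j <;> simp [PP'] <;> ring

lemma PP_eq {ξ η : ℝ} (hξ : ξ ≠ 0) (hη : η ≠ 0) : PP ξ η = (ξ * η) • PP' (1 / ξ) (1 / η) := by
  funext j
  fin_cases j
  · simp [PP, PP']
  · simp [PP, PP']
    field_simp
  · simp [PP, PP']
    field_simp
    ring

lemma PP'_eq {ξ η : ℝ} (hξ : ξ ≠ 0) (hη : η ≠ 0) : PP' ξ η = (ξ * η) • PP (1 / ξ) (1 / η) := by
  funext j
  fin_cases j
  · simp [PP, PP']
    field_simp
  · simp [PP, PP']
  · simp [PP, PP']
    field_simp
    ring

/-- The second end points. -/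
noncomputable def ee : ℕ → ℝ
  | 0 => 0
  | (k + 1) => 1 / (4 * (k : ℝ) + 4 + 1 / (ee k + 4 * k + 2))

lemma ee_nonneg (k : ℕ) : 0 ≤ ee k := by
  induction k with
  | zero => exact le_rfl
  | succ k ih =>
    change 0 ≤ 1 / (4 * (k : ℝ) + 4 + 1 / (ee k + 4 * k + 2))
    positivity

lemma ee_le (k : ℕ) : ee k ≤ 1 / (k : ℝ) := by
  cases k with
  | zero => simp [ee]
  | succ k =>
    change 1 / (4 * (k : ℝ) + 4 + 1 / (ee k + 4 * k + 2)) ≤ _
    have h := ee_nonneg k
    push_cast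
    refine one_div_le_one_div_of_le (by positivity) ?_
    have h1 : 0 < 1 / (ee k + 4 * k + 2) := by positivity
    have h2 : (0 : ℝ) ≤ k := Nat.cast_nonneg k
    linarith

/-- The group elements. -/
noncomputable def gs : ℕ → ((Fin 3 → ℝ) ≃ₗ[ℝ] (Fin 3 → ℝ))
  | 0 => 1
  | (k + 1) => (lpar ^ (2 * k + 2) * par ^ (2 * k + 1)) * gs k

lemma gs_mem (k : ℕ) : gs k ∈ uni.W := by
  induction k with
  | zero => exact one_mem _
  | succ k ih => exact mul_mem (mul_mem (pow_mem lpar_mem _) (pow_mem par_mem _)) ih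

lemma gs_apply {x : ℕ → ℝ}
    (hx1 : ∀ i : ℕ, x i ∈ Set.Icc (2 * ((i : ℝ) + 1)) (2 * ((i : ℝ) + 1) + 1))
    (hx2 : ∀ i, x i = 2 * ((i : ℝ) + 1) + 1 / x (i + 1)) (k : ℕ) :
    ∃ ρ : ℝ, ρ ≠ 0 ∧ gs k (PP (x 0) 0) = ρ • PP (x (2 * k)) (-ee k) := by
  have hxpos : ∀ i, 0 < x i := by
    intro i
    have h1 := (hx1 i).1
    have h2 : (0 : ℝ) ≤ i := Nat.cast_nonneg i
    linarith
  induction k with
  | zero => exact ⟨1, one_ne_zero, by simp [gs, ee]⟩
  | succ k ih =>
    obtain ⟨ρ, hρ, h⟩ := ih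
    have hgs : gs (k + 1) (PP (x 0) 0) =
        (lpar ^ (2 * k + 2)) ((par ^ (2 * k + 1)) (gs k (PP (x 0) 0))) := rfl
    have he := ee_nonneg k
    have hy := hxpos (2 * k + 1)
    have hz := hxpos (2 * k + 2)
    have hf : 0 < ee k + 4 * k + 2 := by positivity
    have hq : 0 < 4 * (k : ℝ) + 4 + 1 / (ee k + 4 * k + 2) := by positivity
    have h1 : x (2 * k) - 2 * ((2 * k + 1 : ℕ) : ℝ) = 1 / x (2 * k + 1) := by
      have h2 := hx2 (2 * k)
      push_cast at h2 ⊢
      linarith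
    have h2 : -ee k - 2 * ((2 * k + 1 : ℕ) : ℝ) = -(ee k + 4 * k + 2) := by
      push_cast
      ring
    have h3 : x (2 * k + 1) - 2 * ((2 * k + 2 : ℕ) : ℝ) = 1 / x (2 * k + 2) := by
      have h4 := hx2 (2 * k + 1)
      push_cast at h4 ⊢
      linarith
    have h4 : 1 / -(ee k + 4 * k + 2) - 2 * ((2 * k + 2 : ℕ) : ℝ) =
        -(4 * (k : ℝ) + 4 + 1 / (ee k + 4 * k + 2)) := by
      push_cast
      field_simp
      ring
    rw [hgs, h, map_smul, map_smul, par_PP, h1, h2,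
      PP_eq (one_div_pos.2 hy).ne' (neg_ne_zero.2 hf.ne'), map_smul, lpar_PP', one_div_one_div, h3,
      h4, PP'_eq (one_div_pos.2 hz).ne' (neg_ne_zero.2 hq.ne'), one_div_one_div, smul_smul,
      smul_smul]
    refine ⟨ρ * (1 / x (2 * k + 1) * -(ee k + 4 * k + 2)) *
      (1 / x (2 * k + 2) * -(4 * (k : ℝ) + 4 + 1 / (ee k + 4 * k + 2))), ?_, ?_⟩
    · refine mul_ne_zero (mul_ne_zero hρ ?_) ?_
      · exact mul_ne_zero (one_div_pos.2 hy).ne' (neg_ne_zero.2 hf.ne')
      · exact mul_ne_zero (one_div_pos.2 hz).ne' (neg_ne_zero.2 hq.ne')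
    · have h5 : 1 / -(4 * (k : ℝ) + 4 + 1 / (ee k + 4 * k + 2)) = -ee (k + 1) := by
        change 1 / -(4 * (k : ℝ) + 4 + 1 / (ee k + 4 * k + 2)) =
          -(1 / (4 * (k : ℝ) + 4 + 1 / (ee k + 4 * k + 2)))
        exact one_div_neg_eq_neg_one_div _
      rw [h5]
      rfl

theorem isLimitDirection : IsLimitDirection uni (Projectivization.mk ℝ x3 x3_ne) := by
  obtain ⟨x, hx1, hx2⟩ := exists_cf
  have hxpos : ∀ i, 0 < x i := by
    intro i
    have h1 := (hx1 i).1
    have h2 : (0 : ℝ) ≤ i := Nat.cast_nonneg i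
    linarith
  have hact : ∀ k, act (gs k) (Projectivization.mk ℝ (PP (x 0) 0) (PP_ne _ _)) =
      Projectivization.mk ℝ (PP (x (2 * k)) (-ee k)) (PP_ne _ _) := by
    intro k
    obtain ⟨ρ, hρ, h⟩ := gs_apply hx1 hx2 k
    rw [act_mk, Projectivization.mk_eq_mk_iff']
    exact ⟨ρ, h.symm⟩
  refine ⟨Projectivization.mk ℝ (PP (x 0) 0) (PP_ne _ _), gs, gs_mem, ?_, ?_⟩
  · have key : ∀ i j, i < j → act (gs i) (Projectivization.mk ℝ (PP (x 0) 0) (PP_ne _ _)) ≠
        act (gs j) (Projectivization.mk ℝ (PP (x 0) 0) (PP_ne _ _)) := by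
      intro i j hij h
      rw [hact, hact, Projectivization.mk_eq_mk_iff'] at h
      obtain ⟨a, ha⟩ := h
      have h1 := congrFun ha 1
      have h0 := congrFun ha 0
      have h2 := congrFun ha 2
      simp [PP] at h1 h0 h2
      rw [h1] at h0 h2
      have hi := hx1 (2 * i)
      have hj := hx1 (2 * j)
      have hei := ee_nonneg i
      have hej : ee j ≤ 1 := by
        refine (ee_le j).trans ?_
        have : (1 : ℝ) ≤ j := by exact_mod_cast (by omega : 1 ≤ j)
        rw [div_le_one (by linarith)]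
        exact this
      have hij' : (i : ℝ) + 1 ≤ j := by exact_mod_cast hij
      have hi2 := hi.2
      have hj1 := hj.1
      push_cast at hi2 hj1
      nlinarith
    intro i j h
    by_contra hne
    rcases lt_or_gt_of_ne hne with hlt | hgt
    · exact key i j hlt h
    · exact key j i hgt h.symm
  · have hlim : Tendsto (fun k => (1 / x (2 * k)) • PP (x (2 * k)) (-ee k)) atTop (𝓝 x3) := by
      have h1 : Tendsto (fun k => ee k) atTop (𝓝 0) :=
        squeeze_zero ee_nonneg ee_le tendsto_one_div_atTop_nhds_zero_nat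
      have h2 : Tendsto (fun k => 1 / x (2 * k)) atTop (𝓝 0) := by
        refine squeeze_zero (fun k => (one_div_pos.2 (hxpos _)).le) (g := fun k : ℕ =>
          1 / ((k : ℝ) + 1)) ?_ tendsto_one_div_add_atTop_nhds_zero_nat
        intro k
        refine one_div_le_one_div_of_le (by positivity) ?_
        have h3 := (hx1 (2 * k)).1
        have h4 : (0 : ℝ) ≤ k := Nat.cast_nonneg k
        push_cast at h3
        linarith
      rw [tendsto_pi_nhds]
      intro s
      fin_cases s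
      · have h3 : (fun k => ((1 / x (2 * k)) • PP (x (2 * k)) (-ee k)) 0) = fun k => -ee k := by
          funext k
          have := (hxpos (2 * k)).ne'
          simp [PP]
          field_simp
        change Tendsto (fun k => ((1 / x (2 * k)) • PP (x (2 * k)) (-ee k)) 0) atTop (𝓝 (x3 0))
        rw [h3, show x3 0 = -0 by simp [x3, Datum.simpleRoot]]
        exact h1.neg
      · have h3 : (fun k => ((1 / x (2 * k)) • PP (x (2 * k)) (-ee k)) 1) =
            fun k => 1 / x (2 * k) := by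
          funext k
          simp [PP]
        change Tendsto (fun k => ((1 / x (2 * k)) • PP (x (2 * k)) (-ee k)) 1) atTop (𝓝 (x3 1))
        rw [h3, show x3 1 = 0 by simp [x3, Datum.simpleRoot]]
        exact h2
      · have h3 : (fun k => ((1 / x (2 * k)) • PP (x (2 * k)) (-ee k)) 2) =
            fun k => (1 / x (2 * k) + 1) * (1 - ee k) := by
          funext k
          have := (hxpos (2 * k)).ne'
          simp [PP]
          field_simp
          ring
        change Tendsto (fun k => ((1 / x (2 * k)) • PP (x (2 * k)) (-ee k)) 2) atTop (𝓝 (x3 2))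
        rw [h3, show x3 2 = (0 + 1) * (1 - 0) by simp [x3, Datum.simpleRoot]]
        exact (h2.add_const 1).mul (h1.const_sub 1)
    have hne : ∀ k, (1 / x (2 * k)) • PP (x (2 * k)) (-ee k) ≠ 0 := fun k =>
      smul_ne_zero (one_div_pos.2 (hxpos _)).ne' (PP_ne _ _)
    refine (tendsto_mk hne x3_ne hlim).congr fun k => ?_
    rw [hact, Projectivization.mk_eq_mk_iff']
    exact ⟨_, rfl⟩

/-- **A space-like limit direction that does not arise through powers.** -/
theorem result : uni.IsLorentzian ∧ ∃ x : ℙ ℝ (Fin 3 → ℝ), IsSpaceLike uni x ∧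
    IsLimitDirection uni x ∧ ∀ w ∈ uni.W, ¬ ArisesThroughPowers w x := by
  refine ⟨lorentzian_uni, Projectivization.mk ℝ x3 x3_ne, ?_, isLimitDirection, not_powers⟩
  unfold IsSpaceLike
  obtain ⟨a, ha⟩ := Projectivization.exists_smul_eq_mk_rep ℝ x3 x3_ne
  rw [← ha]
  change 0 < uni.form ((a : ℝ) • x3) ((a : ℝ) • x3)
  rw [form_smul_left, form_smul_right, form_x3]
  have h1 : cZ x3 = 1 := by simp [cZ, x3, Datum.simpleRoot]
  rw [h1]
  have h2 : (a : ℝ) ≠ 0 := a.ne_zero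
  have h3 : 0 < (a : ℝ) * (a : ℝ) := mul_self_pos.2 h2
  linarith

end Pool.Agent.Results.MP_55c352_al.NotThroughPowers
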